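import Pool.Agent.Helper86.FS.StartGoals
import Pool.Agent.Helper86.FS.StartEqv

/-!
# FS-START-W2C
-/

set_option autoImplicit false

namespace Pool.Agent.Helper51.FS

open Finset Equiv Pool.Agent.Helper86.FS Pool.Agent.Helper3.AK

/-- the places of a group -/
def plc {n b m : ℕ} (x : Cf n b m) : Finset (Fin n) :=
  univ.biUnion fun i : Fin m => univ.map (x i)

theorem mem_plc {n b m : ℕ} (x : Cf n b m) (P : Fin n) : P ∈ plc x ↔ ∃ i a, x i a = P := by
  unfold plc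
  simp only [mem_biUnion, mem_univ, true_and, mem_map]

theorem card_plc {n b m : ℕ} (x : Cf n b m) : (plc x).card ≤ m * b := by
  unfold plc
  refine card_biUnion_le.trans ?_
  simp only [card_map, card_univ, Fintype.card_fin, sum_const, smul_eq_mul]
  exact le_rfl

theorem card_inter {n b m : ℕ} (B : ℝ) (ω : Om n b m) (h : GG B ω) :
    ((plc ω.1 ∩ plc ω.2).card : ℝ) ≤ (m : ℝ) ^ 2 * B := by
  have h1 : plc ω.1 ∩ plc ω.2 ⊆ (univ : Finset (Fin m × Fin m)).biUnion fun q =>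
      univ.map (ω.1 q.1) ∩ univ.map (ω.2 q.2) := by
    intro P hP
    rw [mem_inter, mem_plc, mem_plc] at hP
    obtain ⟨⟨i, a, h1⟩, ⟨i', a', h2⟩⟩ := hP
    rw [mem_biUnion]
    refine ⟨(i, i'), mem_univ _, ?_⟩
    rw [mem_inter, mem_map, mem_map]
    exact ⟨⟨a, mem_univ _, h1⟩, ⟨a', mem_univ _, h2⟩⟩
  have h2 : (plc ω.1 ∩ plc ω.2).card ≤ ∑ q : Fin m × Fin m, ov (ω.1 q.1) (ω.2 q.2) :=
    (card_le_card h1).trans card_biUnion_le
  calc ((plc ω.1 ∩ plc ω.2).card : ℝ) ≤ ((∑ q : Fin m × Fin m, ov (ω.1 q.1) (ω.2 q.2) : ℕ) : ℝ) := by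
        exact_mod_cast h2
    _ = ∑ q : Fin m × Fin m, (ov (ω.1 q.1) (ω.2 q.2) : ℝ) := by push_cast; rfl
    _ ≤ ∑ _q : Fin m × Fin m, B := sum_le_sum fun q _ => h.1 q.1 q.2
    _ = (m : ℝ) ^ 2 * B := by
        rw [sum_const, card_univ, Fintype.card_prod, Fintype.card_fin, nsmul_eq_mul]
        push_cast
        ring

theorem w2c : W2CStmt := by
  intro n b m B D ω hB h
  have h1 : W2 D ω ⊆ (plc ω.1 ×ˢ plc ω.2 ∪ plc ω.2 ×ˢ plc ω.1) ∪
      ((plc ω.1 ∩ plc ω.2) ×ˢ univ ∪ univ ×ˢ (plc ω.1 ∩ plc ω.2)) := by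
    intro p hp
    rw [mem_W2] at hp
    obtain ⟨⟨-, h2, h3⟩, -⟩ := hp
    simp only [← mem_plc] at h2 h3
    simp only [mem_union, mem_product, mem_inter, mem_univ, true_and, and_true]
    tauto
  have h2 : (W2 D ω).card ≤ (plc ω.1).card * (plc ω.2).card + (plc ω.2).card * (plc ω.1).card +
      ((plc ω.1 ∩ plc ω.2).card * n + n * (plc ω.1 ∩ plc ω.2).card) := by
    refine (card_le_card h1).trans ?_
    refine (card_union_le _ _).trans ?_
    refine Nat.add_le_add ?_ ?_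
    · refine (card_union_le _ _).trans ?_
      rw [card_product, card_product]
    · refine (card_union_le _ _).trans ?_
      rw [card_product, card_product, card_univ, Fintype.card_fin]
  have h3 : ((W2 D ω).card : ℝ) ≤ (plc ω.1).card * (plc ω.2).card +
      (plc ω.2).card * (plc ω.1).card +
      ((plc ω.1 ∩ plc ω.2).card * n + n * (plc ω.1 ∩ plc ω.2).card) := by
    exact_mod_cast h2
  have h4 : ((plc ω.1).card : ℝ) ≤ (m : ℝ) * b := by exact_mod_cast card_plc ω.1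
  have h5 : ((plc ω.2).card : ℝ) ≤ (m : ℝ) * b := by exact_mod_cast card_plc ω.2
  have h6 := card_inter B ω h
  have h7 : ((plc ω.1).card : ℝ) * (plc ω.2).card ≤ ((m : ℝ) * b) * ((m : ℝ) * b) :=
    mul_le_mul h4 h5 (by positivity) (by positivity)
  have h8 : ((plc ω.1 ∩ plc ω.2).card : ℝ) * n ≤ ((m : ℝ) ^ 2 * B) * n :=
    mul_le_mul_of_nonneg_right h6 (by positivity)
  have h9 : (plc ω.2).card * (plc ω.1).card = ((plc ω.1).card : ℝ) * (plc ω.2).card := by
    ring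
  nlinarith [h3, h7, h8, h9]

end Pool.Agent.Helper51.FS
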